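import Pool.Agent.Helper45.SD.Goals

set_option autoImplicit false

/-!
# Ramanujan sums: multiplicativity, prime powers, size
-/

open Finset

namespace Pool.Agent.Helper6.SD

open Pool.Agent.Helper45.SD

/-- The function `d` if `d ∣ g`, `0` otherwise. -/
def Fg (g : ℕ) : ArithmeticFunction ℤ := ⟨fun d => if d ∣ g then (d : ℤ) else 0, by simp⟩

theorem Fg_apply (g d : ℕ) : Fg g d = if d ∣ g then (d : ℤ) else 0 := rfl

theorem Fg_mult (g : ℕ) : (Fg g).IsMultiplicative := by
  refine ⟨by simp [Fg_apply], ?_⟩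
  intro a b hab
  simp only [Fg_apply]
  by_cases ha : a ∣ g
  · by_cases hb : b ∣ g
    · rw [if_pos ha, if_pos hb, if_pos (Nat.Coprime.mul_dvd_of_dvd_of_dvd hab ha hb)]
      push_cast; ring
    · rw [if_neg hb, if_neg (fun h => hb (dvd_of_mul_left_dvd h)), mul_zero]
  · rw [if_neg ha, if_neg (fun h => ha (dvd_of_mul_right_dvd h)), zero_mul]

theorem rg_eq (g s : ℕ) : rg g s = (Fg g * ArithmeticFunction.moebius) s := by
  rw [ArithmeticFunction.mul_apply,
    Nat.sum_divisorsAntidiagonal (fun a b => Fg g a * ArithmeticFunction.moebius b), rg]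
  refine Finset.sum_congr rfl fun d _ => ?_
  rw [Fg_apply]
  by_cases h : d ∣ g
  · rw [if_pos h, if_pos h, mul_comm]
  · rw [if_neg h, if_neg h, zero_mul]

theorem rgm : G_RGM := by
  refine ⟨fun g s t _ hst => ?_, fun g => ?_, fun g l i hl hi => ?_⟩
  · rw [rg_eq, rg_eq, rg_eq]
    exact ((Fg_mult g).mul ArithmeticFunction.isMultiplicative_moebius).map_mul_of_coprime hst
  · rw [rg_eq]
    exact ((Fg_mult g).mul ArithmeticFunction.isMultiplicative_moebius).map_one
  · obtain ⟨m, rfl⟩ : ∃ m, i = m + 1 := ⟨i - 1, by omega⟩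
    rw [rg, Nat.divisors_prime_pow hl, Finset.sum_map]
    simp only [Function.Embedding.coeFn_mk]
    rw [Finset.sum_range_succ, Finset.sum_range_succ]
    have h0 : ∑ x ∈ range m, (if l ^ x ∣ g then
        ArithmeticFunction.moebius (l ^ (m + 1) / l ^ x) * ((l ^ x : ℕ) : ℤ) else 0) = 0 := by
      refine Finset.sum_eq_zero fun x hx => ?_
      have hx' := Finset.mem_range.mp hx
      have hμ : ArithmeticFunction.moebius (l ^ (m + 1 - x)) = 0 := by
        rw [ArithmeticFunction.moebius_apply_prime_pow hl (by omega), if_neg (by omega)]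
      rw [Nat.pow_div (by omega) hl.pos, hμ]
      simp
    rw [h0, Nat.pow_div (by omega) hl.pos, Nat.pow_div (le_refl _) hl.pos,
      ArithmeticFunction.moebius_apply_prime_pow hl (by omega)]
    simp only [Nat.sub_self, pow_zero, Nat.add_sub_cancel]
    by_cases h1 : l ^ (m + 1) ∣ g <;> by_cases h2 : l ^ m ∣ g <;> simp [h1, h2] <;> ring

theorem rg_pp {g l i : ℕ} (hl : l.Prime) (hi : 1 ≤ i) :
    |rg g (l ^ i)| ≤ (Nat.totient (l ^ i) : ℤ) := by
  rw [rgm.2.2 g l i hl hi, Nat.totient_prime_pow hl (by omega)]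
  obtain ⟨m, rfl⟩ : ∃ m, i = m + 1 := ⟨i - 1, by omega⟩
  simp only [Nat.add_sub_cancel]
  have hl2 : (2 : ℤ) ≤ l := by exact_mod_cast hl.two_le
  have hp : (0 : ℤ) < (l : ℤ) ^ m := by positivity
  have hc : ((l - 1 : ℕ) : ℤ) = (l : ℤ) - 1 := by
    rw [Nat.cast_sub hl.one_le]; simp
  push_cast [hc]
  by_cases h1 : l ^ (m + 1) ∣ g
  · have h2 : l ^ m ∣ g := dvd_trans (pow_dvd_pow l (by omega)) h1
    rw [if_pos h1, if_pos h2, abs_le, pow_succ]
    constructor
    · nlinarith
    · nlinarith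
  · by_cases h2 : l ^ m ∣ g
    · rw [if_neg h1, if_pos h2, abs_le]
      constructor
      · nlinarith
      · nlinarith
    · rw [if_neg h1, if_neg h2]
      simp only [sub_zero, abs_zero]
      nlinarith

theorem rg_le {g : ℕ} (hg : 0 < g) (s : ℕ) : |rg g s| ≤ (Nat.totient s : ℤ) := by
  induction s using Nat.recOnPosPrimePosCoprime with
  | prime_pow l i hl hi => exact rg_pp hl hi
  | zero => simp [rg]
  | one => rw [rgm.2.1]; simp
  | coprime a b ha hb hab iha ihb =>
    rw [rgm.1 g a b hg hab, abs_mul, Nat.totient_mul hab]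
    push_cast
    exact mul_le_mul iha ihb (abs_nonneg _) (by positivity)

theorem rg_prime {g p : ℕ} (hp : p.Prime) :
    rg g p = (if p ∣ g then (p : ℤ) else 0) - 1 := by
  have h := rgm.2.2 g p 1 hp le_rfl
  simpa using h

theorem r1 : G_R1 := by
  intro p g s hp hg hs hps
  have hp2 : (2 : ℤ) ≤ p := by exact_mod_cast hp.two_le
  have hval : rg g p = (p : ℤ) - 1 ∨ rg g p = -1 := by
    rw [rg_prime hp]
    by_cases h : p ∣ g
    · left; rw [if_pos h]
    · right; rw [if_neg h]; ring
  refine ⟨?_, ?_, hval⟩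
  · obtain ⟨a, s', hs', rfl⟩ := Nat.exists_eq_pow_mul_and_not_dvd hs.ne' p hp.ne_one
    have ha : 1 ≤ a := by
      by_contra h
      have : a = 0 := by omega
      subst this
      simp at hps
      exact hs' hps
    have hcop : Nat.Coprime (p ^ a) s' := Nat.Coprime.pow_left a ((Nat.Prime.coprime_iff_not_dvd hp).mpr hs')
    rw [rgm.1 g _ _ hg hcop, abs_mul, Nat.totient_mul hcop]
    have hC : ((p : ℤ) - 1) * |rg g (p ^ a)| ≤ (Nat.totient (p ^ a) : ℤ) * |rg g p| := by
      by_cases h : p ∣ g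
      · have h1 : |rg g p| = (p : ℤ) - 1 := by
          rw [rg_prime hp, if_pos h, abs_of_nonneg (by linarith)]
        rw [h1, mul_comm]
        exact mul_le_mul_of_nonneg_right (rg_pp hp ha) (by linarith)
      · have h1 : |rg g p| = 1 := by
          rw [rg_prime hp, if_neg h]; simp
        rw [h1, mul_one, rgm.2.2 g p a hp ha]
        have h2 : ¬ p ^ a ∣ g := fun h3 => h (dvd_trans (dvd_pow_self p (by omega)) h3)
        rw [if_neg h2]
        by_cases ha1 : a = 1
        · subst ha1
          simp only [Nat.sub_self, pow_zero, one_dvd, if_true, pow_one]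
          rw [Nat.totient_prime hp]
          have hc : ((p - 1 : ℕ) : ℤ) = (p : ℤ) - 1 := by
            rw [Nat.cast_sub hp.one_le]; simp
          rw [hc]; simp
        · have h3 : ¬ p ^ (a - 1) ∣ g := fun h3 => h (dvd_trans (dvd_pow_self p (by omega)) h3)
          rw [if_neg h3]
          simp
    have hB := rg_le hg s'
    calc ((p : ℤ) - 1) * (|rg g (p ^ a)| * |rg g s'|)
        = (((p : ℤ) - 1) * |rg g (p ^ a)|) * |rg g s'| := by ring
      _ ≤ ((Nat.totient (p ^ a) : ℤ) * |rg g p|) * |rg g s'| :=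
          mul_le_mul_of_nonneg_right hC (abs_nonneg _)
      _ ≤ ((Nat.totient (p ^ a) : ℤ) * |rg g p|) * (Nat.totient s' : ℤ) :=
          mul_le_mul_of_nonneg_left hB (by positivity)
      _ = _ := by push_cast; ring
  · rcases hval with h | h
    · rw [h]; intro h0; linarith
    · rw [h]; norm_num

end Pool.Agent.Helper6.SD
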