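import Pool.Agent.Helper71.SD.Goals

/-!
# Packet CUB of MP_dcced1_gt: the universal cube is a graph map and essential
-/

namespace Pool.Agent.Helper71.SD.CUB

open Pool.Agent.Helper71.AHtpy SimpleGraph

theorem hgt_empty : hgt ∅ = 0 := by
  have h1 : ∀ a, cnt a ∅ = 0 := by
    intro a; simp [cnt]
  have h2 : ∀ a, cnt a (∅ : Finset E)ᶜ = 20 := by
    intro a
    rw [Finset.compl_empty]
    fin_cases a <;> decide
  unfold hgt low
  simp only [h1, h2]
  decide

theorem hgt_univ : hgt (∅ : Finset E)ᶜ = 6 := by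
  have h1 : ∀ a, cnt a ∅ = 0 := by
    intro a; simp [cnt]
  have h2 : ∀ a, cnt a (∅ : Finset E)ᶜ = 20 := by
    intro a
    rw [Finset.compl_empty]
    fin_cases a <;> decide
  unfold hgt low
  simp only [compl_compl, h1, h2]
  decide

theorem cub : S_XC1 → S_XC2 → S_CUB := by
  intro h1 h2 V G A
  obtain ⟨c1, c2, -, -, -, -, -, -⟩ := h1
  obtain ⟨-, x2, x3, x4, -, x6, x7⟩ := h2
  refine ⟨?_, ?_, ⟨∅, ?_, ?_⟩, ⟨∅, ?_, ?_⟩⟩
  · intro S T hST
    rw [near_pt_iff (x6 S) (x6 T)]
    have hTS : (cube E).Adj T S := hST.symm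
    have e1 := x4 S T hST
    have e2 := x4 T S hTS
    refine ⟨⟨e1, e2⟩, ?_⟩
    by_cases hS : NP S
    · by_cases hT : NP T
      · by_cases hh : hgt S = hgt T
        · by_cases hx : xc S = xc T
          · right; right; right; right; left
            rw [hx]
          · right; right; right; right; right
            exact ⟨hh, A.b_adj _ _ ⟨hx, S, T, hST, hS, hT, rfl, rfl⟩⟩
        · right; right; right; right; left
          rw [x3 S T hST hS hT hh]
      · have := x6 T
        unfold NP at hT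
        omega
    · have := x6 S
      unfold NP at hS
      omega
  · intro S hS
    have hc := c2 S
    have ha : ∃ a, 10 ≤ cnt a S := by
      by_contra hno
      push Not at hno
      have := hno 0
      have := hno 1
      have := hno 2
      omega
    have hb : ∃ a, 10 ≤ cnt a Sᶜ := by
      by_contra hno
      push Not at hno
      have q0 := hno 0
      have q1 := hno 1
      have q2 := hno 2
      rw [(c1 0 S).2] at q0
      rw [(c1 1 S).2] at q1
      rw [(c1 2 S).2] at q2
      omega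
    obtain ⟨a, ha⟩ := ha
    obtain ⟨b, hb⟩ := hb
    have hx : xc S = .mid S := (x2 S S).2 ⟨rfl, ⟨a, by omega⟩, ⟨b, by omega⟩⟩
    have hh : hgt S = 3 := x7 S ⟨a, by omega⟩ ⟨b, by omega⟩
    show pt 6 (A.b (xc S)) (hgt S) = pt 6 (A.b (.mid S)) 3
    rw [hx, hh]
  · exact ⟨by simp, 0, by simp⟩
  · show lev (pt 6 (A.b (xc ∅)) (hgt ∅)) = 0
    rw [lev_pt, hgt_empty]
    rfl
  · exact ⟨by simp, 0, by simp⟩
  · show lev (pt 6 (A.b (xc (∅ : Finset E)ᶜ)) (hgt (∅ : Finset E)ᶜ)) = 6
    rw [lev_pt, hgt_univ]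
    rfl

end Pool.Agent.Helper71.SD.CUB
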