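import Pool.Agent.Helper71.SD.Goals

/-!
# Packet HL4 of MP_dcced1_gt: some small set is polar
-/

namespace Pool.Agent.Helper71.SD.HL4

open Pool.Agent.Helper71.AHtpy SimpleGraph

theorem hl4 : S_HL3 → S_XC1 → S_HL4 := by
  intro h3 _ V G eta F n j θ hH
  by_contra hno
  push Not at hno
  have hpos : ∀ z, Small z → 0 < lev (θ z) ∧ lev (θ z) < n := by
    intro z hz
    obtain ⟨q1, q2⟩ := hno z hz
    have := lev_le (θ z)
    omega
  have hj := hH.hj
  have hj' := hH.hj'
  have hc0 : ∀ a, cnt a (∅ : Finset E) = 0 := by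
    intro a; simp [cnt]
  have hcond : ∀ a, ∀ S' : Finset E, (∅ : Finset E) ⊆ S' →
      (∀ i ∈ S', i ∉ (∅ : Finset E) → blk i = a) → cnt a S' ≤ 5 →
      0 < lev (θ S') ∧ lev (θ S') < n := by
    intro a S' _ hb hc
    have hb' : ∀ i ∈ S', blk i = a := fun i hi => hb i hi (by simp)
    by_cases h4 : S'.card ≤ 4
    · exact hpos S' ⟨h4, a, hb'⟩
    · have e1 : cnt a S' = S'.card := by
        unfold cnt
        rw [Finset.filter_true_of_mem hb']
      have e2 : ∀ b, b ≠ a → cnt b S' = 0 := by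
        intro b hba
        unfold cnt
        rw [Finset.card_eq_zero, Finset.filter_eq_empty_iff]
        intro i hi hib
        exact hba (hib.symm.trans (hb' i hi))
      obtain ⟨v, hv, -, -⟩ := hH.forced S' (by
        intro b
        by_cases hba : b = a
        · rw [hba]; exact hc
        · rw [e2 b hba]; omega) ⟨a, by omega⟩
      rw [hv, lev_pt]
      omega
  have hmain : ∀ a, eta (lab (θ ∅)) ≤ 5 ∧
      ∑ b, |F (lab (θ ∅)) b - (if b = a then 3 else 0)| ≤ 5 := by
    intro a
    obtain ⟨r1, r2⟩ := h3 V G eta F n j θ hH ∅ (fun b => by rw [hc0]; omega) a (hcond a)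
    rw [hc0] at r1 r2
    simp only [hc0] at r2
    refine ⟨by omega, ?_⟩
    have r3 : (0 : ℤ) ≤ |(lev (θ ∅) : ℤ) - j| := abs_nonneg _
    have r4 : ∑ b, |F (lab (θ ∅)) b - (if b = a then 3 else 0)| =
        ∑ b, |F (lab (θ ∅)) b - (if b = a then 3 else min 3 (((0 : ℕ) : ℤ)))| := by
      refine Finset.sum_congr rfl fun b _ => ?_
      by_cases hba : b = a
      · simp [hba]
      · simp [hba]
    rw [r4]
    push_cast at r2 ⊢
    linarith
  obtain ⟨a0, ha0⟩ := hH.rk.F_top (lab (θ ∅)) (by have := (hmain 0).1; omega)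
  have m0 := (hmain 0).2
  have m1 := (hmain 1).2
  have m2 := (hmain 2).2
  simp only [Fin.sum_univ_three] at m0 m1 m2
  have d01 : ((0 : Fin 3) = 1) = False := by simp
  have d02 : ((0 : Fin 3) = 2) = False := by simp
  have d10 : ((1 : Fin 3) = 0) = False := by simp
  have d12 : ((1 : Fin 3) = 2) = False := by simp
  have d20 : ((2 : Fin 3) = 0) = False := by simp
  have d21 : ((2 : Fin 3) = 1) = False := by simp
  simp only [d01, d02, d10, d12, d20, d21, if_true, if_false, sub_zero] at m0 m1 m2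
  have key : F (lab (θ ∅)) 0 = 3 ∨ F (lab (θ ∅)) 1 = 3 ∨ F (lab (θ ∅)) 2 = 3 := by
    fin_cases a0
    · exact Or.inl ha0
    · exact Or.inr (Or.inl ha0)
    · exact Or.inr (Or.inr ha0)
  generalize F (lab (θ ∅)) 0 = f0 at *
  generalize F (lab (θ ∅)) 1 = f1 at *
  generalize F (lab (θ ∅)) 2 = f2 at *
  have g0 := neg_abs_le f0
  have g0' := le_abs_self f0
  have g1 := neg_abs_le f1
  have g1' := le_abs_self f1
  have g2 := neg_abs_le f2
  have g2' := le_abs_self f2
  have k0 := neg_abs_le (f0 - 3)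
  have k0' := le_abs_self (f0 - 3)
  have k1 := neg_abs_le (f1 - 3)
  have k1' := le_abs_self (f1 - 3)
  have k2 := neg_abs_le (f2 - 3)
  have k2' := le_abs_self (f2 - 3)
  rcases key with h | h | h <;> omega

end Pool.Agent.Helper71.SD.HL4
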